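import Mathlib

set_option autoImplicit false

/-!
# Complete bipartite graphs in matroidal families of graphs

If a matroidal family contains `K_{m,n}` then `n ≤ m ^ 2 - m + 1`. In particular no matroidal
family contains `K_{3,8}`.

Idea of the proof. If `K_{m,n}` is a circuit then, in the matroid of a large complete graph, a new
vertex raises the rank by at most `m - 1`. As the circuits are connected graphs, vertex disjoint
independent sets have an independent union. So no independent set of edges on `s` vertices has more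
than `(m - 1) s` edges; but `K_{m,n}` minus an edge is independent.
-/

namespace Pool.Agent.Results.MP_41a700_co.BipartiteBound

/-- A family of finite simple graphs: for each `n`, a set of graphs on the vertex set `Fin n`. -/
abbrev Family : Type := ∀ n : ℕ, SimpleGraph (Fin n) → Prop

/-- The graph `G` belongs to the family `P`, up to isomorphism. -/
def Mem (P : Family) {V : Type} (G : SimpleGraph V) : Prop :=
  ∃ (n : ℕ) (K : SimpleGraph (Fin n)), P n K ∧ Nonempty (G ≃g K)

/-- The edge sets of the subgraphs of `G` that belong to `P`. -/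
def copies (P : Family) {V : Type} (G : SimpleGraph V) : Set (Set (Sym2 V)) :=
  {C | ∃ H : G.Subgraph, H.edgeSet = C ∧ Mem P H.coe}

/-- `P` is a matroidal family: a nonempty set of finite connected simple graphs, closed under
isomorphism, such that for every finite simple graph `G` the edge sets of the subgraphs of `G`
isomorphic to members of `P` are the circuits of a matroid on the edge set of `G`. -/
structure IsMatroidalFamily (P : Family) : Prop where
  nonempty : ∃ (n : ℕ) (K : SimpleGraph (Fin n)), P n K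
  connected : ∀ (n : ℕ) (K : SimpleGraph (Fin n)), P n K → K.Connected
  iso : ∀ (n m : ℕ) (K : SimpleGraph (Fin n)) (L : SimpleGraph (Fin m)),
    P n K → Nonempty (K ≃g L) → P m L
  matroid : ∀ (V : Type) [Finite V] (G : SimpleGraph V), ∃ M : Matroid (Sym2 V),
    M.E = G.edgeSet ∧ ∀ C : Set (Sym2 V), M.IsCircuit C ↔ C ∈ copies P G

open Set

section

variable {P : Family} {V : Type}

/-- the edges between `A` and `B` -/
def between (A B : Set V) : Set (Sym2 V) := {e | ∃ a ∈ A, ∃ b ∈ B, e = s(a, b)}

/-- the edges with both ends in `W` -/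
def inside (W : Set V) : Set (Sym2 V) := {e | ¬ e.IsDiag ∧ ∀ x ∈ e, x ∈ W}

lemma between_mem_copies {m n : ℕ} (hK : Mem P (completeBipartiteGraph (Fin m) (Fin n)))
    (A B : Finset V) (hA : A.card = m) (hB : B.card = n) (hAB : Disjoint A B) :
    between (A : Set V) B ∈ copies P (⊤ : SimpleGraph V) := by
  classical
  obtain ⟨k, K, hPK, ⟨φ⟩⟩ := hK
  let eA : Fin m ≃ A := (Finset.equivFinOfCardEq hA).symm
  let eB : Fin n ≃ B := (Finset.equivFinOfCardEq hB).symm
  let f : Fin m ⊕ Fin n → V := Sum.elim (fun i => (eA i : V)) (fun j => (eB j : V))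
  have hne : ∀ i j, (eA i : V) ≠ (eB j : V) := by
    intro i j h
    exact (Finset.disjoint_left.1 hAB) (eA i).2 (by rw [h]; exact (eB j).2)
  have hf : Function.Injective f := by
    rintro (i | i) (j | j) h
    · simp only [f, Sum.elim_inl] at h
      rw [eA.injective (Subtype.ext h)]
    · exact absurd h (hne i j)
    · exact absurd h.symm (hne j i)
    · simp only [f, Sum.elim_inr] at h
      rw [eB.injective (Subtype.ext h)]
  let F : SimpleGraph.Copy (completeBipartiteGraph (Fin m) (Fin n)) (⊤ : SimpleGraph V) :=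
    ⟨⟨f, fun {a b} h => by
      rw [SimpleGraph.top_adj]
      exact fun h' => h.ne (hf h')⟩, hf⟩
  refine ⟨F.toSubgraph, ?_, k, K, hPK, ⟨F.isoToSubgraph.symm.trans φ⟩⟩
  ext e
  rw [SimpleGraph.Subgraph.edgeSet_map]
  simp only [between, mem_image, mem_ofPred_eq]
  constructor
  · rintro ⟨e, he, rfl⟩
    induction e with
    | _ x y =>
      rw [SimpleGraph.Subgraph.mem_edgeSet, SimpleGraph.Subgraph.top_adj,
        completeBipartiteGraph_adj] at he
      rcases x with x | x <;> rcases y with y | y
      · simp at he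
      · exact ⟨eA x, (eA x).2, eB y, (eB y).2, rfl⟩
      · exact ⟨eA y, (eA y).2, eB x, (eB x).2, Sym2.eq_swap⟩
      · simp at he
  · rintro ⟨a, ha, b, hb, rfl⟩
    refine ⟨s(Sum.inl (eA.symm ⟨a, ha⟩), Sum.inr (eB.symm ⟨b, hb⟩)), ?_, ?_⟩
    · rw [SimpleGraph.Subgraph.mem_edgeSet, SimpleGraph.Subgraph.top_adj,
        completeBipartiteGraph_adj]
      simp
    · rw [Sym2.map_mk]
      have h1 : F.toHom (Sum.inl (eA.symm ⟨a, ha⟩)) = a := by
        show f (Sum.inl (eA.symm ⟨a, ha⟩)) = a
        simp [f]
      have h2 : F.toHom (Sum.inr (eB.symm ⟨b, hb⟩)) = b := by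
        show f (Sum.inr (eB.symm ⟨b, hb⟩)) = b
        simp [f]
      rw [h1, h2]

lemma ground_top {M : Matroid (Sym2 V)} (hE : M.E = (⊤ : SimpleGraph V).edgeSet) (e : Sym2 V) :
    e ∈ M.E ↔ ¬ e.IsDiag := by
  rw [hE]
  induction e with
  | _ x y => simp

lemma step {m n : ℕ} (hm : 1 ≤ m) (hn : 1 ≤ n)
    (hK : Mem P (completeBipartiteGraph (Fin m) (Fin n)))
    {M : Matroid (Sym2 V)} (hE : M.E = (⊤ : SimpleGraph V).edgeSet)
    (hC : ∀ C : Set (Sym2 V), M.IsCircuit C ↔ C ∈ copies P (⊤ : SimpleGraph V))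
    [DecidableEq V] (W : Finset V) (v : V) (hv : v ∉ W) (hW : m + n - 1 ≤ W.card) :
    M.eRk (inside (insert v W : Finset V)) ≤ M.eRk (inside (W : Set V)) + (m - 1 : ℕ) := by
  obtain ⟨U, hUW, hU⟩ := Finset.exists_subset_card_eq (s := W) (n := m - 1) (by omega)
  let T : Set (Sym2 V) := inside (W : Set V) ∪ (fun u => s(v, u)) '' (U : Set V)
  have hTE : T ⊆ M.E := by
    rintro e (he | ⟨u, hu, rfl⟩)
    · rw [ground_top hE]; exact he.1
    · rw [ground_top hE, Sym2.mk_isDiag_iff]
      rintro rfl
      exact hv (hUW hu)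
  have key : inside ((insert v W : Finset V) : Set V) ⊆ M.closure T := by
    intro e he
    by_cases hev : v ∈ e
    · obtain ⟨u, rfl⟩ := hev
      have huv : u ≠ v := by
        rintro rfl
        exact he.1 (Sym2.mk_isDiag_iff.2 rfl)
      have huW : u ∈ W := by
        have := he.2 u (Sym2.mem_mk_right v u)
        simpa [huv] using this
      by_cases huU : u ∈ U
      · exact M.mem_closure_of_mem (Or.inr ⟨u, huU, rfl⟩) hTE
      · -- a copy of the complete bipartite graph
        have hcard : (W \ insert u U).card = W.card - m := by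
          rw [Finset.card_sdiff_of_subset (Finset.insert_subset huW hUW),
            Finset.card_insert_of_notMem huU, hU]
          congr 1
          omega
        obtain ⟨X, hXW, hX⟩ := Finset.exists_subset_card_eq (s := W \ insert u U) (n := n - 1)
          (by omega)
        have hvX : v ∉ X := fun h => hv (Finset.mem_sdiff.1 (hXW h)).1
        have hA : (insert u U).card = m := by
          rw [Finset.card_insert_of_notMem huU, hU]; omega
        have hB : (insert v X).card = n := by
          rw [Finset.card_insert_of_notMem hvX, hX]; omega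
        have hAB : Disjoint (insert u U) (insert v X) := by
          rw [Finset.disjoint_left]
          intro x hx hx'
          rcases Finset.mem_insert.1 hx' with rfl | hx'
          · rcases Finset.mem_insert.1 hx with rfl | hx
            · exact huv rfl
            · exact hv (hUW hx)
          · exact (Finset.mem_sdiff.1 (hXW hx')).2 hx
        have hcirc := (hC _).2 (between_mem_copies hK _ _ hA hB hAB)
        have hmem : s(v, u) ∈ between ((insert u U : Finset V) : Set V)
            ((insert v X : Finset V) : Set V) :=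
          ⟨u, by simp, v, by simp, Sym2.eq_swap⟩
        have h1 := hcirc.mem_closure_sdiff_singleton_of_mem hmem
        refine M.closure_subset_closure ?_ h1
        rintro e' ⟨⟨a, ha, b, hb, rfl⟩, hne⟩
        rw [Finset.mem_coe, Finset.mem_insert] at ha hb
        rcases hb with rfl | hb
        · rcases ha with rfl | ha
          · exact absurd Sym2.eq_swap hne
          · exact Or.inr ⟨a, ha, Sym2.eq_swap⟩
        · left
          have haW : a ∈ W := by
            rcases ha with rfl | ha
            · exact huW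
            · exact hUW ha
          have hbW := Finset.mem_sdiff.1 (hXW hb)
          refine ⟨?_, ?_⟩
          · rw [Sym2.mk_isDiag_iff]
            rintro rfl
            exact hbW.2 (Finset.mem_insert.2 ha)
          · intro x hx
            rcases Sym2.mem_iff.1 hx with rfl | rfl
            · exact haW
            · exact hbW.1
    · apply M.mem_closure_of_mem (Or.inl ⟨he.1, fun x hx => ?_⟩) hTE
      have := he.2 x hx
      rw [Finset.coe_insert] at this
      rcases this with rfl | h
      · exact absurd hx hev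
      · exact h
  calc M.eRk (inside ((insert v W : Finset V) : Set V)) ≤ M.eRk (M.closure T) := M.eRk_mono key
    _ = M.eRk T := M.eRk_closure_eq T
    _ ≤ M.eRk (inside (W : Set V)) + M.eRk ((fun u => s(v, u)) '' (U : Set V)) :=
        M.eRk_union_le_eRk_add_eRk _ _
    _ ≤ M.eRk (inside (W : Set V)) + (m - 1 : ℕ) := by
        gcongr
        refine (M.eRk_le_encard _).trans ((encard_image_le _ _).trans ?_)
        rw [encard_coe_eq_coe_finsetCard, hU]

lemma rank_le {m n : ℕ} (hm : 1 ≤ m) (hn : 1 ≤ n)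
    (hK : Mem P (completeBipartiteGraph (Fin m) (Fin n)))
    {M : Matroid (Sym2 V)} (hE : M.E = (⊤ : SimpleGraph V).edgeSet)
    (hC : ∀ C : Set (Sym2 V), M.IsCircuit C ↔ C ∈ copies P (⊤ : SimpleGraph V))
    [DecidableEq V] (k : ℕ) : ∀ W : Finset V, W.card = m + n - 1 + k →
    M.eRk (inside (W : Set V)) ≤ ((m + n - 1) ^ 2 + (m - 1) * k : ℕ) := by
  induction k with
  | zero =>
    intro W hW
    refine (M.eRk_le_encard _).trans ?_
    have h1 : inside (W : Set V) ⊆ (fun p : V × V => s(p.1, p.2)) '' ((W ×ˢ W : Finset (V × V)) :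
        Set (V × V)) := by
      rintro e ⟨_, he⟩
      induction e with
      | _ x y =>
        refine ⟨(x, y), ?_, rfl⟩
        rw [Finset.mem_coe, Finset.mem_product]
        exact ⟨he x (Sym2.mem_mk_left x y), he y (Sym2.mem_mk_right x y)⟩
    refine (encard_le_encard h1).trans ((encard_image_le _ _).trans ?_)
    rw [encard_coe_eq_coe_finsetCard, Finset.card_product, hW]
    apply le_of_eq
    norm_cast
    ring
  | succ k ih =>
    intro W hW
    obtain ⟨v, hv⟩ : W.Nonempty := by
      rw [← Finset.card_pos]; omega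
    have h1 : insert v (W.erase v) = W := Finset.insert_erase hv
    have hc : (W.erase v).card = m + n - 1 + k := by
      rw [Finset.card_erase_of_mem hv, hW]; omega
    have h2 := step hm hn hK hE hC (W.erase v) v (Finset.notMem_erase v W) (by omega)
    rw [h1] at h2
    refine h2.trans ?_
    calc M.eRk (inside ((W.erase v : Finset V) : Set V)) + ((m - 1 : ℕ) : ℕ∞)
        ≤ ((m + n - 1) ^ 2 + (m - 1) * k : ℕ) + ((m - 1 : ℕ) : ℕ∞) := by
          gcongr
          exact ih _ hc
      _ = ((m + n - 1) ^ 2 + (m - 1) * (k + 1) : ℕ) := by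
          norm_cast
          ring

end

/-- the vertex set of `t` disjoint copies of `K_{m,n}` -/
abbrev VV (t m n : ℕ) : Type := Fin t × (Fin m ⊕ Fin n)

/-- `t` disjoint copies of `K_{m,n}`, each without the edge between the vertices number `0` -/
def JJ (t m n : ℕ) : Set (Sym2 (VV t m n)) :=
  {e | ∃ (i : Fin t) (a : Fin m) (b : Fin n), (a.1 ≠ 0 ∨ b.1 ≠ 0) ∧
    e = s((i, Sum.inl a), (i, Sum.inr b))}

lemma JJ_encard (t m n : ℕ) (hm : 1 ≤ m) (hn : 1 ≤ n) :
    (JJ t m n).encard = (t * (m * n - 1) : ℕ) := by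
  classical
  let S : Finset (Fin t × (Fin m × Fin n)) :=
    Finset.univ ×ˢ (Finset.univ.erase (⟨0, by omega⟩, ⟨0, by omega⟩))
  have h1 : JJ t m n = (fun p : Fin t × (Fin m × Fin n) =>
      s(((p.1, Sum.inl p.2.1) : VV t m n), (p.1, Sum.inr p.2.2))) '' (S : Set _) := by
    ext e
    constructor
    · rintro ⟨i, a, b, hab, rfl⟩
      refine ⟨(i, (a, b)), ?_, rfl⟩
      simp only [S, Finset.coe_product, Finset.coe_univ, Set.mem_prod, Set.mem_univ, true_and,
        Finset.mem_coe, Finset.mem_erase, Finset.mem_univ, and_true, ne_eq, Prod.mk.injEq, not_and]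
      intro ha hb
      rw [ha, hb] at hab
      simp at hab
    · rintro ⟨⟨i, a, b⟩, hp, rfl⟩
      refine ⟨i, a, b, ?_, rfl⟩
      simp only [S, Finset.coe_product, Finset.coe_univ, Set.mem_prod, Set.mem_univ, true_and,
        Finset.mem_coe, Finset.mem_erase, Finset.mem_univ, and_true, ne_eq, Prod.mk.injEq,
        not_and] at hp
      by_contra hcon
      push Not at hcon
      exact hp (Fin.ext hcon.1) (Fin.ext hcon.2)
  rw [h1, Function.Injective.encard_image, encard_coe_eq_coe_finsetCard]
  · congr 1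
    simp only [S]
    rw [Finset.card_product, Finset.card_erase_of_mem (Finset.mem_univ _)]
    simp
  · rintro ⟨i, a, b⟩ ⟨i', a', b'⟩ h
    simp only [Sym2.eq_iff, Prod.mk.injEq] at h
    rcases h with ⟨⟨h1, h2⟩, ⟨_, h3⟩⟩ | ⟨⟨_, h2⟩, _⟩
    · rw [h1, Sum.inl_injective h2, Sum.inr_injective h3]
    · exact absurd h2 (by simp)

lemma JJ_indep {P : Family} (hP : IsMatroidalFamily P) {t m n : ℕ} (hm : 1 ≤ m) (hn : 1 ≤ n)
    (hK : Mem P (completeBipartiteGraph (Fin m) (Fin n)))
    {M : Matroid (Sym2 (VV t m n))} (hE : M.E = (⊤ : SimpleGraph (VV t m n)).edgeSet)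
    (hC : ∀ C : Set (Sym2 (VV t m n)), M.IsCircuit C ↔
      C ∈ copies P (⊤ : SimpleGraph (VV t m n))) : M.Indep (JJ t m n) := by
  classical
  have hJE : JJ t m n ⊆ M.E := by
    rintro e ⟨i, a, b, _, rfl⟩
    rw [ground_top hE, Sym2.mk_isDiag_iff]
    simp
  rw [Matroid.indep_iff_forall_subset_not_isCircuit hJE]
  intro C hCJ hcirc
  obtain ⟨H, hHC, k, K, hPK, ⟨φ⟩⟩ := (hC C).1 hcirc
  have hconn : H.coe.Connected := (SimpleGraph.Iso.connected_iff φ).2 (hP.connected k K hPK)
  obtain ⟨e0, he0⟩ := hcirc.nonempty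
  obtain ⟨i, a, b, _, he0'⟩ := hCJ he0
  have hx0 : (i, Sum.inl a) ∈ H.verts := by
    rw [← hHC, he0', SimpleGraph.Subgraph.mem_edgeSet] at he0
    exact he0.fst_mem
  have hadj : ∀ x y : VV t m n, H.Adj x y → x.1 = y.1 := by
    intro x y h
    rw [← SimpleGraph.Subgraph.mem_edgeSet, hHC] at h
    obtain ⟨i', a', b', _, h'⟩ := hCJ h
    rw [Sym2.eq_iff] at h'
    rcases h' with ⟨h1, h2⟩ | ⟨h1, h2⟩ <;> rw [h1, h2]
  have hall : ∀ y : H.verts, y.1.1 = i := by
    intro y
    obtain ⟨W⟩ := hconn.preconnected ⟨_, hx0⟩ y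
    have key : ∀ (x y : H.verts), H.coe.Walk x y → x.1.1 = y.1.1 := by
      intro x y W
      induction W with
      | nil => rfl
      | cons h _ ih =>
        rw [← ih]
        exact hadj _ _ h
    exact (key _ _ W).symm
  -- the block number `i`
  let A : Finset (VV t m n) := Finset.univ.image (fun a : Fin m => (i, Sum.inl a))
  let B : Finset (VV t m n) := Finset.univ.image (fun b : Fin n => (i, Sum.inr b))
  have hA : A.card = m := by
    rw [Finset.card_image_of_injective _ (by intro x y h; simpa using h)]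
    simp
  have hB : B.card = n := by
    rw [Finset.card_image_of_injective _ (by intro x y h; simpa using h)]
    simp
  have hAB : Disjoint A B := by
    rw [Finset.disjoint_left]
    intro x hx hx'
    simp only [A, B, Finset.mem_image, Finset.mem_univ, true_and] at hx hx'
    obtain ⟨a, rfl⟩ := hx
    obtain ⟨b, hb⟩ := hx'
    simp at hb
  have hcirc' := (hC _).2 (between_mem_copies hK A B hA hB hAB)
  have hsub : C ⊆ between (A : Set (VV t m n)) B := by
    intro e he
    obtain ⟨i', a', b', _, rfl⟩ := hCJ he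
    have h1 : (i', Sum.inl a') ∈ H.verts := by
      rw [← hHC, SimpleGraph.Subgraph.mem_edgeSet] at he
      exact he.fst_mem
    have h2 : i' = i := hall ⟨_, h1⟩
    subst h2
    exact ⟨(i', Sum.inl a'), by simp [A], (i', Sum.inr b'), by simp [B], rfl⟩
  have heq := hcirc.eq_of_subset_isCircuit hcirc' hsub
  have hmem : s(((i, Sum.inl ⟨0, by omega⟩) : VV t m n), (i, Sum.inr ⟨0, by omega⟩)) ∈ C := by
    rw [heq]
    exact ⟨_, by simp [A], _, by simp [B], rfl⟩
  obtain ⟨i', a', b', hab, h'⟩ := hCJ hmem
  rw [Sym2.eq_iff] at h'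
  rcases h' with ⟨h1, h2⟩ | ⟨h1, _⟩
  · simp only [Prod.mk.injEq, Sum.inl.injEq, Sum.inr.injEq] at h1 h2
    rw [← h1.2, ← h2.2] at hab
    simp at hab
  · simp at h1

theorem bound {m n : ℕ} (hm : 1 ≤ m) (hmn : m ^ 2 + 2 ≤ n + m) (P : Family)
    (hP : IsMatroidalFamily P) : ¬ Mem P (completeBipartiteGraph (Fin m) (Fin n)) := by
  classical
  intro hK
  have hn : 1 ≤ n := by nlinarith
  set N0 := m + n - 1 with hN0
  let t := N0 ^ 2 + 1
  obtain ⟨M, hE, hC⟩ := hP.matroid (VV t m n) ⊤
  have h1 := JJ_indep hP hm hn hK hE hC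
  have hcardV : (Finset.univ : Finset (VV t m n)).card = t * (m + n) := by
    simp
  have hle : N0 ≤ t * (m + n) := by
    have : 1 ≤ t := by simp [t]
    calc N0 ≤ 1 * (m + n) := by omega
      _ ≤ t * (m + n) := Nat.mul_le_mul_right _ this
  have h2 := rank_le hm hn hK hE hC (t * (m + n) - N0) Finset.univ (by rw [hcardV]; omega)
  have h3 : JJ t m n ⊆ inside ((Finset.univ : Finset (VV t m n)) : Set (VV t m n)) := by
    intro e he
    refine ⟨?_, fun x _ => by simp⟩
    rw [← ground_top hE]
    exact h1.subset_ground he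
  have h4 : (JJ t m n).encard ≤ ((N0) ^ 2 + (m - 1) * (t * (m + n) - N0) : ℕ) :=
    (h1.encard_le_eRk_of_subset h3).trans h2
  rw [JJ_encard t m n hm hn] at h4
  have h5 : t * (m * n - 1) ≤ N0 ^ 2 + (m - 1) * (t * (m + n) - N0) := by exact_mod_cast h4
  have h6 : (m - 1) * (t * (m + n) - N0) ≤ t * ((m - 1) * (m + n)) := by
    calc (m - 1) * (t * (m + n) - N0) ≤ (m - 1) * (t * (m + n)) :=
          Nat.mul_le_mul_left _ (Nat.sub_le _ _)
      _ = t * ((m - 1) * (m + n)) := by ring
  have h7 : (m - 1) * (m + n) + 1 ≤ m * n - 1 := by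
    obtain ⟨k, rfl⟩ : ∃ k, m = k + 1 := ⟨m - 1, by omega⟩
    simp only [Nat.add_sub_cancel]
    have : (k + 1) ^ 2 + 2 ≤ n + (k + 1) := hmn
    have h8 : k * (k + 1 + n) + 2 ≤ (k + 1) * n := by nlinarith
    omega
  have h8 : t * ((m - 1) * (m + n) + 1) ≤ t * (m * n - 1) := Nat.mul_le_mul_left _ h7
  have h9 : t * ((m - 1) * (m + n) + 1) = t * ((m - 1) * (m + n)) + t := by ring
  have h10 : t = N0 ^ 2 + 1 := rfl
  omega

/-- If a matroidal family of graphs contains `K_{m,n}` (`m ≥ 1`) then `n ≤ m ^ 2 - m + 1`. So it is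
not true that for all `n ≥ m ≥ 3` some matroidal family contains `K_{m,n}`: no matroidal family
contains `K_{3,8}`. -/
theorem result :
    (∃ m n : ℕ, 3 ≤ m ∧ m ≤ n ∧ ∀ P : Family, IsMatroidalFamily P →
      ¬ Mem P (completeBipartiteGraph (Fin m) (Fin n))) ∧
    (∀ m n : ℕ, 1 ≤ m → m ^ 2 - m + 2 ≤ n → ∀ P : Family, IsMatroidalFamily P →
      ¬ Mem P (completeBipartiteGraph (Fin m) (Fin n))) := by
  refine ⟨⟨3, 8, by norm_num, by norm_num, fun P hP => bound (by norm_num) (by norm_num) P hP⟩, ?_⟩
  intro m n hm hmn P hP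
  refine bound hm ?_ P hP
  have : m ≤ m ^ 2 := by nlinarith
  omega

end Pool.Agent.Results.MP_41a700_co.BipartiteBound
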